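import Mathlib
import Pool.Agent.Helper50.PR.Defs

/-!
# PR-10: the elimination polynomial
-/

open Finset

namespace Pool.Agent.Helper50.PR

namespace PR10

open Polynomial

theorem hasseDeriv_map {R S : Type*} [CommRing R] [CommRing S] (φ : R →+* S) (k : ℕ)
    (p : R[X]) : (hasseDeriv k p).map φ = hasseDeriv k (p.map φ) := by
  ext n
  rw [coeff_map, hasseDeriv_coeff, hasseDeriv_coeff, coeff_map, map_mul, map_natCast]

/-- the even part of the Taylor expansion -/
noncomputable def ev {R : Type*} [CommRing R] (N : ℕ) (p : R[X]) (d : R) : R[X] :=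
  ∑ k ∈ range N, if Even k then hasseDeriv k p * C (d ^ (k / 2)) else 0

/-- the odd part of the Taylor expansion -/
noncomputable def od {R : Type*} [CommRing R] (N : ℕ) (p : R[X]) (d : R) : R[X] :=
  ∑ k ∈ range N, if Even k then 0 else hasseDeriv k p * C (d ^ (k / 2))

theorem elim_def {R : Type*} [CommRing R] (p : R[X]) (d : R) :
    elim p d = ev (p.natDegree + 1) p d ^ 2 - C d * od (p.natDegree + 1) p d ^ 2 := rfl

theorem ev_ext {R : Type*} [CommRing R] {N M : ℕ} (p : R[X]) (d : R)
    (hN : p.natDegree + 1 ≤ N) (hNM : N ≤ M) : ev M p d = ev N p d := by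
  unfold ev
  symm
  apply sum_subset (range_mono hNM)
  intro k _ hk
  rw [mem_range, not_lt] at hk
  rw [hasseDeriv_eq_zero_of_lt_natDegree p k (by omega)]
  simp

theorem od_ext {R : Type*} [CommRing R] {N M : ℕ} (p : R[X]) (d : R)
    (hN : p.natDegree + 1 ≤ N) (hNM : N ≤ M) : od M p d = od N p d := by
  unfold od
  symm
  apply sum_subset (range_mono hNM)
  intro k _ hk
  rw [mem_range, not_lt] at hk
  rw [hasseDeriv_eq_zero_of_lt_natDegree p k (by omega)]
  simp

theorem ev_map {R S : Type*} [CommRing R] [CommRing S] (φ : R →+* S) (N : ℕ) (p : R[X]) (d : R) :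
    (ev N p d).map φ = ev N (p.map φ) (φ d) := by
  unfold ev
  rw [Polynomial.map_sum]
  apply sum_congr rfl
  intro k _
  split_ifs
  · rw [Polynomial.map_mul, hasseDeriv_map, map_C, map_pow]
  · exact Polynomial.map_zero φ

theorem od_map {R S : Type*} [CommRing R] [CommRing S] (φ : R →+* S) (N : ℕ) (p : R[X]) (d : R) :
    (od N p d).map φ = od N (p.map φ) (φ d) := by
  unfold od
  rw [Polynomial.map_sum]
  apply sum_congr rfl
  intro k _
  split_ifs
  · exact Polynomial.map_zero φ
  · rw [Polynomial.map_mul, hasseDeriv_map, map_C, map_pow]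

theorem eval_add_eq {R : Type*} [CommRing R] (p : R[X]) (s x : R) :
    p.eval (x + s) = (ev (p.natDegree + 1) p (s ^ 2)).eval x
      + s * (od (p.natDegree + 1) p (s ^ 2)).eval x := by
  have h : p.eval (x + s) = ∑ k ∈ range (p.natDegree + 1), (hasseDeriv k p).eval x * s ^ k := by
    rw [add_comm, ← taylor_eval, eval_eq_sum_range, natDegree_taylor]
    apply sum_congr rfl
    intro k _
    rw [taylor_coeff]
  rw [h]
  unfold ev od
  rw [eval_finset_sum, eval_finset_sum, mul_sum, ← sum_add_distrib]
  apply sum_congr rfl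
  intro k _
  rcases Nat.even_or_odd k with hk | hk
  · rw [if_pos hk, if_pos hk, eval_mul, eval_C, eval_zero, mul_zero, add_zero, ← pow_mul]
    congr 2
    obtain ⟨m, rfl⟩ := hk
    omega
  · have hk' : ¬ Even k := Nat.not_even_iff_odd.2 hk
    rw [if_neg hk', if_neg hk', eval_mul, eval_C, eval_zero, zero_add, ← pow_mul]
    obtain ⟨m, rfl⟩ := hk
    have h2 : (2 * m + 1) / 2 = m := by omega
    rw [h2, pow_succ]
    ring

end PR10

open PR10

theorem elim_eval {R : Type*} [CommRing R] (p : Polynomial R) (s x : R) :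
    (elim p (s ^ 2)).eval x = p.eval (x + s) * p.eval (x - s) := by
  have h1 := eval_add_eq p s x
  have h2 := eval_add_eq p (-s) x
  rw [neg_sq, ← sub_eq_add_neg] at h2
  rw [h1, h2, elim_def, Polynomial.eval_sub, Polynomial.eval_pow, Polynomial.eval_mul,
    Polynomial.eval_pow, Polynomial.eval_C]
  ring

theorem elim_map {R S : Type*} [CommRing R] [CommRing S] (φ : R →+* S) (p : Polynomial R) (d : R) :
    (elim p d).map φ = elim (p.map φ) (φ d) := by
  have hle : (p.map φ).natDegree + 1 ≤ p.natDegree + 1 :=
    Nat.add_le_add_right (Polynomial.natDegree_map_le) 1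
  rw [elim_def, elim_def, Polynomial.map_sub, Polynomial.map_mul, Polynomial.map_pow,
    Polynomial.map_pow, Polynomial.map_C, ev_map, od_map,
    ev_ext (p.map φ) (φ d) le_rfl hle, od_ext (p.map φ) (φ d) le_rfl hle]

theorem MR_map {R S : Type*} [CommRing R] [CommRing S] (φ : R →+* S) (L : List R) (B C D n : R) :
    φ (MR L B C D n) = MR (L.map φ) (φ B) (φ C) (φ D) (φ n) := by
  have hs : ∀ l : List R, (sprod l).map φ = sprod (l.map φ) := by
    intro l
    induction l with
    | nil => simp [sprod]
    | cons d l ih =>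
      simp only [sprod, List.map_cons]
      rw [elim_map, ih]
  have hw : φ (wt L) = wt (L.map φ) := by
    unfold wt
    rw [map_add, map_one, map_list_sum, List.map_map, List.map_map]
    congr 2
    apply List.map_congr_left
    intro a _
    simp
  have hc : ∀ (v W : R) (l : List R), (scl v W l).map φ = scl (φ v) (φ W) (l.map φ) := by
    intro v W l
    induction l with
    | nil => rfl
    | cons d l ih =>
      simp only [scl, List.map_cons, ih, List.length_map, map_mul, map_pow]
  unfold MR
  rw [← Polynomial.eval_map_apply, hs, hc, hw]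
  simp only [map_mul, map_pow, map_sub, map_add, map_one, map_ofNat, hw, List.length_map]

end Pool.Agent.Helper50.PR
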