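import Mathlib
import Pool.Agent.Helper50.PR.Defs

/-!
# PR-12: the base of the Pell sequence
-/

open Finset

namespace Pool.Agent.Helper50.PR

theorem base_sound {n a α : ℕ} (hn : 3 ≤ n) (ha : (a : ℤ) = n + 1 + α * (10000 * (n : ℤ) ^ 4 - 1))
    (h : IsSquare (qF (10000 * (n : ℤ) ^ 4) (a : ℤ))) : (10000 * n ^ 4) ^ n ≤ a := by
  have hn1 : 1 ≤ n := by omega
  have hn4 : n ≤ n ^ 4 := by
    calc n = n ^ 1 := (pow_one n).symm
      _ ≤ n ^ 4 := Nat.pow_le_pow_right hn1 (by norm_num)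
  obtain ⟨b, hb⟩ : ∃ b : ℕ, b = 10000 * n ^ 4 := ⟨_, rfl⟩
  have b1 : 1 < b := by omega
  have hbz : (10000 * (n : ℤ) ^ 4) = (b : ℤ) := by rw [hb]; push_cast; ring
  rw [hbz] at ha h
  rw [← hb]
  obtain ⟨X, hX⟩ := h
  unfold qF at hX
  have hX2 : ((X.natAbs : ℤ)) * X.natAbs = ((b : ℤ) ^ 2 - 1) * (a : ℤ) ^ 2 + 1 := by
    rw [hX, ← Int.natAbs_mul_self' X]
  have hpell : X.natAbs * X.natAbs - (b * b - 1) * a * a = 1 := by
    have hbb : 1 ≤ b * b := Nat.one_le_iff_ne_zero.2 (by positivity)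
    have h1 : X.natAbs * X.natAbs = (b * b - 1) * a * a + 1 := by
      zify [hbb]
      zify at hX2
      linear_combination hX2
    omega
  obtain ⟨m, -, hm⟩ := Pell.eq_pell b1 hpell
  have hmod : a ≡ m [MOD b - 1] := by
    rw [hm]
    exact Pell.yn_modEq_a_sub_one b1 m
  have hmod2 : n + 1 ≡ a [MOD b - 1] := by
    have h2 : a = (n + 1) + α * (b - 1) := by
      have hb1 : 1 ≤ b := b1.le
      zify [hb1]
      exact ha
    rw [h2]
    unfold Nat.ModEq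
    rw [Nat.add_mul_mod_self_right]
  have hmod3 : n + 1 ≡ m [MOD b - 1] := hmod2.trans hmod
  have hlt : n + 1 < b - 1 := by omega
  have hle : n + 1 ≤ m := by
    by_contra hcon
    push Not at hcon
    have h3 : m < b - 1 := by omega
    have h4 := Nat.ModEq.eq_of_lt_of_lt hmod3 hlt h3
    omega
  calc b ^ n ≤ Pell.xn b1 n := Pell.xn_ge_a_pow b1 n
    _ ≤ Pell.yn b1 (n + 1) := by
      rw [Pell.yn_succ]
      exact Nat.le_add_right _ _
    _ ≤ Pell.yn b1 m := (Pell.strictMono_y b1).monotone hle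
    _ = a := hm.symm

theorem base_complete {n : ℕ} (hn : 3 ≤ n) : ∃ a α : ℕ,
    (a : ℤ) = n + 1 + α * (10000 * (n : ℤ) ^ 4 - 1) ∧
    IsSquare (qF (10000 * (n : ℤ) ^ 4) (a : ℤ)) := by
  have hn1 : 1 ≤ n := by omega
  have hn4 : n ≤ n ^ 4 := by
    calc n = n ^ 1 := (pow_one n).symm
      _ ≤ n ^ 4 := Nat.pow_le_pow_right hn1 (by norm_num)
  obtain ⟨b, hb⟩ : ∃ b : ℕ, b = 10000 * n ^ 4 := ⟨_, rfl⟩
  have b1 : 1 < b := by omega
  have hbz : (10000 * (n : ℤ) ^ 4) = (b : ℤ) := by rw [hb]; push_cast; ring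
  rw [hbz]
  have hmod : n + 1 ≡ Pell.yn b1 (n + 1) [MOD b - 1] := (Pell.yn_modEq_a_sub_one b1 (n + 1)).symm
  have hge : n + 1 ≤ Pell.yn b1 (n + 1) := Pell.yn_ge_n b1 (n + 1)
  obtain ⟨α, hα⟩ := (Nat.modEq_iff_dvd' hge).1 hmod
  refine ⟨Pell.yn b1 (n + 1), α, ?_, ?_⟩
  · have hb1 : 1 ≤ b := b1.le
    have h2 : Pell.yn b1 (n + 1) = (n + 1) + (b - 1) * α := by omega
    rw [h2]
    push_cast [hb1]
    ring
  · refine ⟨(Pell.xn b1 (n + 1) : ℤ), ?_⟩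
    have h := Pell.pell_eqz b1 (n + 1)
    rw [Pell.dz_val] at h
    unfold Pell.xz Pell.yz Pell.az at h
    unfold qF
    linear_combination -h

end Pool.Agent.Helper50.PR
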